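import Pool.Agent.U16.SSE.ZzR

/-!
# The small-set expansion conjecture: graphs of bounded degree

The definitions used in the statement:

* in `Pool/Agent/U16/SSE/Prom.lean`: `cut` (the number of edges between a set and its complement),
  `Regular`, `code` (the bit string which describes a regular graph), `Yes`, `No` (the yes and the
  no instances of the problem `SSE(η, δ)`);
* in `Pool/Agent/U16/SSE/ZzR.lean`: `Deg D` (the codes of the graphs of degree `D`);
* in `Pool/Agent/U16/UGT/Main.lean`: `Red` (many-one reductions to promise problems);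
* in `Pool/Agent/NPC/Defs.lean`: `PolyTime`, `InNP`.

Idea of the proof. Every vertex of the `d`-regular graph is replaced by `d` copies, so that the new
degree is `d ^ 2`, and we take the zig-zag product with the walks of constant length in the
Gabber-Galil graph with `d ^ 2` vertices. Its matrix differs from that of the blow-up by a matrix of
small norm, so all small sets still have large expansion (for this we need a property of functions
instead of sets, see `Pool/Agent/U16/SSE/Frac.lean`). The result is a multigraph of constant degree,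
and it is made simple by replacing every vertex by `Q ^ 2` copies and the multiple edges by
pseudorandom bipartite graphs. For small degrees a greedily chosen set contains many edges.
-/

set_option autoImplicit false

namespace Pool.Agent.Results.MP_8d8c46_lc.BoundedDegree

open Pool.Agent.NPC Pool.Agent.U16.SSE
open Pool.Agent.U16.UGT (Red inNPP_SAT)

/-- The promise problem is hard for `NP` under many-one reductions. -/
def Hard (Y N : Set (List Bool)) : Prop := ∀ L, InNP L → Red L Y N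

/-- The small-set expansion conjecture. -/
def Conjecture : Prop :=
  ∀ η : ℚ, 0 < η → η < 1 / 2 → ∃ δ : ℚ, 0 < δ ∧ δ ≤ 1 / 2 ∧ Hard (Yes η δ) (No η δ)

/-- The conjecture for graphs whose degree is a constant depending on `η`. -/
def Bounded : Prop :=
  ∀ η : ℚ, 0 < η → η < 1 / 2 → ∃ (D : ℕ) (δ : ℚ), 0 < δ ∧ δ ≤ 1 / 2 ∧
    Hard (Yes η δ ∩ Deg D) (No η δ ∩ Deg D)

/-- The conjecture for graphs whose degree is a constant, polynomial in `1 / η`, and for all
sufficiently small densities. -/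
def BoundedStrong : Prop :=
  ∀ η : ℚ, 0 < η → η < 1 / 2 → ∃ (D : ℕ) (δ₀ : ℚ), (D : ℚ) ≤ (15 / η) ^ 9000 ∧ 0 < δ₀ ∧
    ∀ δ : ℚ, 0 < δ → δ ≤ δ₀ → Hard (Yes η δ ∩ Deg D) (No η δ ∩ Deg D)

/-- (1) For every `η` there is a constant degree `D`, at most `(3 / η) ^ 9000`, such that all
languages which reduce to `SSE(η, δ)`, for some `δ ≤ η`, reduce to `SSE(5 η, δ)` for graphs of
degree `D`. (2) The small-set expansion conjecture is equivalent to its form for graphs of bounded
degree, and to this form with a degree polynomial in `1 / η` and for all small densities. (3) The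
languages which reduce to small-set expansion for all `η` are those which reduce to small-set
expansion in graphs of bounded degree for all `η`. (4) If `D < 1 / η` then there are only finitely
many no instances of degree `D`. -/
theorem result :
    (∀ η : ℚ, 0 < η → η < 1 / 2 → ∃ D : ℕ, (D : ℚ) ≤ (3 / η) ^ 9000 ∧
      ∀ (L : Set (List Bool)) (η' δ : ℚ), 0 < δ → δ ≤ η → 5 * η ≤ η' →
        Red L (Yes η δ) (No η δ) → Red L (Yes η' δ ∩ Deg D) (No η' δ ∩ Deg D)) ∧
    ((Conjecture ↔ Bounded) ∧ (Conjecture ↔ BoundedStrong)) ∧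
    (∀ L : Set (List Bool),
      (∀ η : ℚ, 0 < η → η < 1 / 2 → ∃ δ : ℚ, 0 < δ ∧ δ ≤ 1 / 2 ∧ Red L (Yes η δ) (No η δ)) ↔
      (∀ η : ℚ, 0 < η → η < 1 / 2 → ∃ (D : ℕ) (δ : ℚ), 0 < δ ∧ δ ≤ 1 / 2 ∧
        Red L (Yes η δ ∩ Deg D) (No η δ ∩ Deg D))) ∧
    (∀ (η δ : ℚ) (D : ℕ), D * η < 1 → 0 < δ → δ ≤ 1 → (No η δ ∩ Deg D).Finite) := by
  have h1 : ∀ η : ℚ, 0 < η → η < 1 / 2 → ∃ D : ℕ, (D : ℚ) ≤ (3 / η) ^ 9000 ∧
      ∀ (L : Set (List Bool)) (η' δ : ℚ), 0 < δ → δ ≤ η → 5 * η ≤ η' →
        Red L (Yes η δ) (No η δ) → Red L (Yes η' δ ∩ Deg D) (No η' δ ∩ Deg D) := by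
    intro η hη hη2
    obtain ⟨k, Q, e1, e2, e3, e4, e5⟩ := exists_params hη hη2
    exact ⟨16 ^ k * 16 ^ k * Q, e5, fun L η' δ hδ hδη hη' h =>
      red_deg hη hη2 hδ hδη hη' e1 e2 e3 e4 h⟩
  -- small densities, for one language
  have small : ∀ (L : Set (List Bool)) (η δ : ℚ), 0 < η → η < 1 / 2 → 0 < δ → δ ≤ 1 / 2 →
      Red L (Yes (η / 5) δ) (No (η / 5) δ) → ∃ δ₀ : ℚ, 0 < δ₀ ∧ ∀ δ' : ℚ, 0 < δ' → δ' ≤ δ₀ →
        Red L (Yes η δ') (No η δ') := by
    intro L η δ hη hη2 hδ hδ2 h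
    refine red_of_disjTT' (k := 1) (δ := fun _ => δ) (by linarith) (by linarith) ?_
      (fun _ => hδ) (fun _ => by linarith) (disjTT_of_red (disjoint_yes_no (by linarith) δ) h)
    push_cast
    linarith
  -- bounded degree and small densities, for one language
  have bdd : ∀ (L : Set (List Bool)) (η δ : ℚ), 0 < η → η < 1 / 2 → 0 < δ → δ ≤ 1 / 2 →
      Red L (Yes (η / 5 / 5) δ) (No (η / 5 / 5) δ) → ∃ (D : ℕ) (δ₀ : ℚ),
        (D : ℚ) ≤ (15 / η) ^ 9000 ∧ 0 < δ₀ ∧ ∀ δ' : ℚ, 0 < δ' → δ' ≤ δ₀ →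
          Red L (Yes η δ' ∩ Deg D) (No η δ' ∩ Deg D) := by
    intro L η δ hη hη2 hδ hδ2 h
    obtain ⟨δ₀, e1, e2⟩ := small L (η / 5) δ (by linarith) (by linarith) hδ hδ2 h
    obtain ⟨D, e3, e4⟩ := h1 (η / 5) (by linarith) (by linarith)
    refine ⟨D, min δ₀ (η / 5), ?_, lt_min e1 (by linarith), fun δ' h2 h3 => ?_⟩
    · have e5 : 3 / (η / 5) = 15 / η := by
        field_simp
        norm_num
      rw [← e5]
      exact e3
    · exact e4 L η δ' h2 (h3.trans (min_le_right _ _)) (by linarith)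
        (e2 δ' h2 (h3.trans (min_le_left _ _)))
  have hstrong : Conjecture → BoundedStrong := by
    intro h η hη hη2
    obtain ⟨δ, e1, e2, e3⟩ := h (η / 5 / 5) (by linarith) (by linarith)
    obtain ⟨D, δ₀, e4, e5, e6⟩ := bdd (lang SAT) η δ hη hη2 e1 e2 (e3 _ inNPP_SAT)
    exact ⟨D, δ₀, e4, e5, fun δ' h2 h3 L hL => Red.of_reduces (npHard_SAT L hL) (e6 δ' h2 h3)⟩
  have hweak : BoundedStrong → Bounded := by
    intro h η hη hη2
    obtain ⟨D, δ₀, e4, e5, e6⟩ := h η hη hη2
    exact ⟨D, min δ₀ (1 / 2), lt_min e5 (by norm_num), min_le_right _ _,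
      e6 _ (lt_min e5 (by norm_num)) (min_le_left _ _)⟩
  have hback : Bounded → Conjecture := by
    intro h η hη hη2
    obtain ⟨D, δ, e1, e2, e3⟩ := h η hη hη2
    exact ⟨δ, e1, e2, fun L hL => (e3 L hL).mono Set.inter_subset_left Set.inter_subset_left⟩
  refine ⟨h1, ⟨⟨fun h => hweak (hstrong h), hback⟩, ⟨hstrong, fun h => hback (hweak h)⟩⟩,
    fun L => ⟨fun h η hη hη2 => ?_, fun h η hη hη2 => ?_⟩,
    fun η δ D hD hδ hδ1 => finite_no_deg hD hδ hδ1⟩
  · obtain ⟨δ, e1, e2, e3⟩ := h (η / 5 / 5) (by linarith) (by linarith)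
    obtain ⟨D, δ₀, e4, e5, e6⟩ := bdd L η δ hη hη2 e1 e2 e3
    exact ⟨D, min δ₀ (1 / 2), lt_min e5 (by norm_num), min_le_right _ _,
      e6 _ (lt_min e5 (by norm_num)) (min_le_left _ _)⟩
  · obtain ⟨D, δ, e1, e2, e3⟩ := h η hη hη2
    exact ⟨δ, e1, e2, e3.mono Set.inter_subset_left Set.inter_subset_left⟩

end Pool.Agent.Results.MP_8d8c46_lc.BoundedDegree
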