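import Pool.Agent.U20.DG.Sse

/-!
# Small-set expansion is hard for decomposable circuits

A circuit (`Pool/Agent/U20/DN/Defs.lean`) has leaves which test one variable each, conjunctions of
two gates and disjunctions of arbitrarily many gates; it is decomposable (a DNNF) if no variable
occurs below both gates of a conjunction. An input is accepted if there is a proof tree (`Acc`).
The circuits need not be acyclic. This model contains the nondeterministic read-once branching
programs, and generally all nondeterministic algorithms and dynamic programs that divide the
input between independent subproblems; different computations may read the variables in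
different orders and divide them along different trees.

The inputs are the lifts of the complete bipartite graph on `n + n` vertices with `q` layers
(`Pool/Agent/U20/DG/SseDefs.lean`), `n`-regular graphs with `2 n q` vertices; such a graph is given by
a permutation of the `q` layers for each pair `(u, v)`, and a leaf may test any property of one of
these permutations. Let `δ = 1 / q`. A decomposable circuit which accepts all lifts with a set of
`δ (2 n q) = 2 n` vertices which no edge leaves (expansion `0`), and rejects all lifts in which every
set of `2 n` vertices has expansion at least `1 - 1 / g`, has at least `q ^ (n / P)` gates,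
`P = 2 ^ 45 * g ^ 12`, if `q ≥ 2 ^ 97 * g ^ 24` and `n ≥ 576 g ^ 3`. So for every `η > 0` and every
sufficiently small `δ = 1 / q` exponentially many gates are needed for `SSE(η, δ)`, already for
expansion `0` in the yes case. The bound holds up to the factor `2 ^ μ` also for random circuits which
never accept a no instance and accept every yes instance with probability at least `2 ^ (- μ)` (the
deterministic case is `R = Unit`, `μ = 0`).

Conversely the trivial circuit, which guesses the set, has `q ^ (2 n) (2 n ^ 2 + 1) + 1` gates and
accepts exactly the lifts with a set of `2 n` vertices of expansion `0`. So the exponent `n` is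
correct up to a factor which depends on `g` only.

Proof: A labeling of a unique game on the complete bipartite graph which satisfies all constraints is
a closed set of `2 n` vertices of the lift, and vice versa. If at most a fraction `1 / (32 g ^ 3)` of the
constraints can be satisfied then every set `S` of `2 n` vertices has expansion at least `1 - 1 / g`:
at most `n ^ 2 / (2 g)` edges inside `S` have an endpoint in a fiber which contains more than
`4 g` vertices of `S`, and for the other edges consider `(4 g) ^ 2` labelings. The lower bound for the
games is shown in `U20/DG` for all games with maps with small fibers: a circuit with `s` gates which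
accepts a random satisfiable game has a product set of accepted inputs, with respect to a
partition of the pairs into `t` small parts, which contains a fraction `s ^ (- 2 t)` of these games
(`U20/DN`), but mixtures of `t` of them have small value with high probability.
-/

set_option autoImplicit false

namespace Pool.Agent.Results.MP_8d8c46_lc.DecomposableCircuits

open Pool.Agent.U20.DN Pool.Agent.U20.DG

theorem result :
    (∀ (n q : ℕ) (x : Fin n × Fin n → Equiv.Perm (Fin q)) (a : (Fin n ⊕ Fin n) × Fin q),
      Nat.card {b // (lift x).Adj a b} = n) ∧
    (∀ g q n : ℕ, 1 ≤ g → 2 ^ 97 * g ^ 24 ≤ q → 576 * g ^ 3 ≤ n →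
      ∀ (μ : ℕ) (R : Type) [Fintype R] [Nonempty R] (I : R → Type) [∀ ρ, Fintype (I ρ)]
        (G : ∀ ρ, I ρ → Gate (Fin n × Fin n) (Equiv.Perm (Fin q)) (I ρ)) (r : ∀ ρ, I ρ),
        (∀ ρ, Decomposable (G ρ)) →
        (∀ ρ x, AllExpand g (lift x) n (2 * n) → ¬ Acc (G ρ) x (r ρ)) →
        (∀ x, SomeClosed (lift x) (2 * n) →
          Nat.card R ≤ 2 ^ μ * Nat.card {ρ // Acc (G ρ) x (r ρ)}) →
        ∃ ρ, q ^ n ≤ (2 ^ μ * Fintype.card (I ρ)) ^ (2 ^ 45 * g ^ 12)) ∧
    (∀ n q : ℕ,
      ∃ (I : Type) (_ : Fintype I) (G : I → Gate (Fin n × Fin n) (Equiv.Perm (Fin q)) I) (r : I),
        Decomposable G ∧ Fintype.card I = q ^ n * q ^ n * (2 * (n * n) + 1) + 1 ∧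
          ∀ x, Acc G x r ↔ SomeClosed (lift x) (2 * n)) :=
  ⟨fun _ _ x a => lift_regular x a,
    fun _ _ _ hg hq hn μ R _ _ I _ G r hd hno hyes => main_sse hg hq hn μ R I G r hd hno hyes,
    upper_sse⟩

end Pool.Agent.Results.MP_8d8c46_lc.DecomposableCircuits
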