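import Pool.Agent.H16DG.SseTight

/-!
# Small-set expansion is hard for decomposable circuits, for all `δ` and all gaps

A circuit (`Pool/Agent/U20/DN/Defs.lean`) has leaves which test one variable each, conjunctions of
two gates and disjunctions of arbitrarily many gates; it is decomposable (a DNNF) if no variable
occurs below both gates of a conjunction. An input is accepted if there is a proof tree (`Acc`).
The model contains the nondeterministic read-once branching programs.

The inputs are the lifts of the complete bipartite graph on `n + n` vertices with `q` layers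
(`Pool/Agent/U20/DG/SseDefs.lean`), `n`-regular graphs with `N = 2 n q` vertices; such a graph is given
by a permutation of the `q` layers for each pair `(u, v)`. Let `δ = m / q`; sets of `δ N` vertices have
`2 n m` elements.

1. Let `w` be any lift, for example one with a set of `δ N` vertices of small, or of zero, expansion. A
decomposable circuit which accepts all rotations of `w` (rotate the layers of each vertex; these
graphs are isomorphic to `w`) and rejects all lifts in which each set of `δ N` vertices has expansion
at least `1 - δ - η` has at least `exp (η ^ 14 n / (2 ^ 42 q ^ 3))` gates, if `n ≥ 2 ^ 18 q / η ^ 6`. The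
bound also holds, up to the factor `2 ^ μ`, for random circuits which reject as before and accept
each rotation of `w` with probability at least `2 ^ (- μ)`. So for all rational `δ` and all
`η' > δ` exponential size is needed for `SSE(η', δ)`, if any yes instance among the lifts is accepted
together with its rotations; for `η' < δ` there are no instances of the other kind among the lifts
(`MP_8d8c46_lc.TensorNetworks`).
2. A lift and its rotations are isomorphic and `n`-regular.
3. A decomposable circuit with `C(2 n q, k) (2 n ^ 2 + 1) + 1` gates accepts exactly the lifts with a set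
of `k` vertices of expansion `0`.

Proof of (1): A circuit with `s` gates which accepts a random rotation of `w` has a product set of
accepted inputs, with respect to a partition of the pairs into `t` parts of at most `2 θ` pairs, which
contains a fraction `s ^ (- 2 t)` of these (`U20.DN`). In mixtures of `t` independent random rotations of
`w`, for all sets `S`, `T` of layers of the two sides with `|S| + |T| ≤ 2 n m` there are at most
`(δ + η) n ^ 2 m` edges between `S` and `T`, except with probability `exp (- η ^ 2 n / (32 t))`: the fourth
power of the deviation is at most `(n m) ^ 4` times the number of four-cycles weighted with the kernel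
(each edge minus its mean), and only degenerate four-cycles, or those with all edges in one part, have
mean different from `0`; then bounded differences (`H16DG.SseVal`). So all sets of `2 n m` vertices
expand.
-/

set_option autoImplicit false

namespace Pool.Agent.Results.MP_8d8c46_lc.RotatedLifts

open Pool.Agent.H16DG Pool.Agent.U20.DN
open Pool.Agent.U20.DG (lift SomeClosed)

theorem result (q : ℕ) [NeZero q] :
    (∀ (n m : ℕ) (η : ℝ), 0 < η → η ≤ 1 → 1 ≤ m → 2 ^ 18 * (q : ℝ) / η ^ 6 ≤ (n : ℝ) →
      ∀ (w : Fin n × Fin n → Equiv.Perm (Fin q)) (μ : ℕ) (R : Type) [Fintype R] [Nonempty R]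
        (I : R → Type) [∀ ρ, Fintype (I ρ)]
        (G : ∀ ρ, I ρ → Gate (Fin n × Fin n) (Equiv.Perm (Fin q)) (I ρ)) (r : ∀ ρ, I ρ),
        (∀ ρ, Decomposable (G ρ)) →
        (∀ ρ x, Expanding (1 - (m : ℝ) / q - η) (lift x) n (2 * (n * m)) →
          ¬ Acc (G ρ) x (r ρ)) →
        (∀ α β : Fin n → Fin q,
          Nat.card R ≤ 2 ^ μ * Nat.card {ρ // Acc (G ρ) (rotate w α β) (r ρ)}) →
        ∃ ρ, Real.exp (η ^ 14 * n / (2 ^ 42 * (q : ℝ) ^ 3)) ≤
          2 ^ μ * (Fintype.card (I ρ) : ℝ)) ∧
    (∀ (n : ℕ) (w : Fin n × Fin n → Equiv.Perm (Fin q)) (α β : Fin n → Fin q),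
      Nonempty (lift w ≃g lift (rotate w α β)) ∧
        ∀ a, Nat.card {b // (lift w).Adj a b} = n) ∧
    (∀ n k : ℕ,
      ∃ (I : Type) (_ : Fintype I) (G : I → Gate (Fin n × Fin n) (Equiv.Perm (Fin q)) I) (r : I),
        Decomposable G ∧ Fintype.card I = (2 * n * q).choose k * (2 * n ^ 2 + 1) + 1 ∧
          ∀ x, Acc G x r ↔ SomeClosed (lift x) k) := by
  classical
  refine ⟨fun n m η hη hη1 hm hn w μ R _ _ I _ G r hd hno hyes =>
      lower_sse hη hη1 hm hn w μ R I G r hd hno hyes,
    fun n w α β => ⟨rotate_iso w α β, Pool.Agent.U20.DG.lift_regular w⟩, fun n k => ?_⟩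
  obtain ⟨φ, hφ⟩ : ∃ φ : {S : Finset ((Fin n ⊕ Fin n) × Fin q) // S.card = k} →
      Fin n × Fin n → Equiv.Perm (Fin q) → Prop,
      φ = fun S e π => ∀ i : Fin q, (Sum.inl e.1, i) ∈ S.1 ↔ (Sum.inr e.2, π i) ∈ S.1 := ⟨_, rfl⟩
  refine ⟨UI (Fin n × Fin n) {S : Finset ((Fin n ⊕ Fin n) × Fin q) // S.card = k}, inferInstance,
    ub φ, none, ub_decomposable φ, ?_, fun x => ?_⟩
  · rw [card_ui, card_sets, Fintype.card_prod, Fintype.card_fin]
    ring
  · rw [ub_acc, hφ]
    constructor
    · rintro ⟨S, hS⟩
      exact ⟨S.1, S.2, cut_eq_zero.2 hS⟩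
    · rintro ⟨S, hS, h⟩
      exact ⟨⟨S, hS⟩, cut_eq_zero.1 h⟩

end Pool.Agent.Results.MP_8d8c46_lc.RotatedLifts
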