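import Pool.Agent.H16DG.SseTight

/-!
# Small-set expansion is hard for read-once tensor networks, for all `δ` and all gaps

A tree tensor network `Net K V A W` (`Pool/Agent/TH700/PA/Defs.lean`) has leaves that read one
variable with a vector in `K ^ W` for each value; an inner node combines the vectors of its two
children by an arbitrary bilinear map. It accepts the input `x` if a linear form of the vector of
the root is not zero. The field `K` and the weights are arbitrary, so there may be cancellations.
The tree is arbitrary. The bond dimension is `card W`.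

The inputs are the lifts of the complete bipartite graph on `n + n` vertices with `q` layers
(`Pool/Agent/U20/DG/SseDefs.lean`), `n`-regular graphs with `N = 2 n q` vertices; such a graph is given
by a permutation of the `q` layers for each pair `(u, v)`. Let `δ = m / q`; sets of `δ N` vertices have
`2 n m` elements.

1. Let `w` be any lift, for example one with a set of `δ N` vertices of small, or of zero, expansion. A
network which reads each pair at most once, is not zero on all rotations of `w` (rotate the layers
of each vertex; these graphs are isomorphic to `w`, see 3.), and is zero on all lifts in which each set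
of `δ N` vertices has expansion at least `1 - δ - η`, has bond dimension at least
`exp (η ^ 10 n / (2 ^ 32 q ^ 2))`, if `n ≥ 2 ^ 43 q ^ 3 / η ^ 14`; the number of nodes is arbitrary. The
bound also holds, up to the factor `2 ^ μ`, for random networks which are zero as before and are not
zero on each rotation of `w` with probability at least `2 ^ (- μ)`. So for all rational `δ` and all
`η' > δ` exponential bond dimension is needed for `SSE(η', δ)`, if any yes instance among the lifts
is accepted together with its rotations.
2. For `c > 1 - δ` there are no lifts in which each set of `δ N` vertices has expansion at least `c`: so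
all gaps are covered by 1.
3. A lift and its rotations are isomorphic and `n`-regular.
4. There is a linear network over `ℚ` with `2 n ^ 2 - 1` nodes and bond dimension `C(2 n q, k)`, which
reads each pair once and is not zero exactly on the lifts with a set of `k` vertices of expansion `0`.

Proof of (1): By the partition, rank and replacement lemmas of `TH700.PA` the accepted inputs of any
family contain many mixtures of `t` of them with respect to a partition of the pairs into `t` parts
of at most `2 θ` pairs. In mixtures of `t` independent random rotations of `w`, for all sets `S`, `T` of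
layers of the two sides with `|S| + |T| ≤ 2 n m` there are at most `(δ + η) n ^ 2 m` edges between
`S` and `T`, except with probability `exp (- η ^ 2 n / (32 t))`: the fourth power of the deviation is at
most `(n m) ^ 4` times the number of four-cycles weighted with the kernel (each edge minus its
mean), and only degenerate four-cycles, or those with all edges in one part, have mean different from
`0`; then bounded differences (`H16DG.SseVal`). So all sets of `2 n m` vertices expand.
-/

set_option autoImplicit false

namespace Pool.Agent.Results.MP_8d8c46_lc.TensorNetworks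

open Pool.Agent.H16DG
open Pool.Agent.U20.DG (lift SomeClosed)
open Pool.Agent.TH700.PA (Net)

theorem result (q : ℕ) [NeZero q] :
    (∀ (n m : ℕ) (η : ℝ), 0 < η → η ≤ 1 → 1 ≤ m → 2 ^ 43 * (q : ℝ) ^ 3 / η ^ 14 ≤ (n : ℝ) →
      ∀ (w : Fin n × Fin n → Equiv.Perm (Fin q)) (μ : ℕ) (R : Type) [Fintype R] [Nonempty R]
        (K W : R → Type) [∀ ρ, Field (K ρ)] [∀ ρ, Fintype (W ρ)]
        (T : ∀ ρ, Net (K ρ) (Fin n × Fin n) (Equiv.Perm (Fin q)) (W ρ)) (c : ∀ ρ, W ρ → K ρ),
        (∀ ρ e, (T ρ).reads e ≤ 1) →
        (∀ ρ x, Expanding (1 - (m : ℝ) / q - η) (lift x) n (2 * (n * m)) →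
          (T ρ).value (c ρ) x = 0) →
        (∀ α β : Fin n → Fin q,
          Nat.card R ≤ 2 ^ μ * Nat.card {ρ // (T ρ).value (c ρ) (rotate w α β) ≠ 0}) →
        ∃ ρ, Real.exp (η ^ 10 * n / (2 ^ 32 * (q : ℝ) ^ 2)) ≤
          2 ^ μ * (Fintype.card (W ρ) : ℝ)) ∧
    (∀ (n m : ℕ) (c : ℝ), 1 ≤ n → 1 ≤ m → m ≤ q → 1 - (m : ℝ) / q < c →
      ∀ x : Fin n × Fin n → Equiv.Perm (Fin q), ¬ Expanding c (lift x) n (2 * (n * m))) ∧
    (∀ (n : ℕ) (w : Fin n × Fin n → Equiv.Perm (Fin q)) (α β : Fin n → Fin q),
      Nonempty (lift w ≃g lift (rotate w α β)) ∧
        ∀ a, Nat.card {b // (lift w).Adj a b} = n) ∧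
    (∀ n k : ℕ, 1 ≤ n →
      ∃ (W : Type) (_ : Fintype W) (T : Net ℚ (Fin n × Fin n) (Equiv.Perm (Fin q)) W)
        (c : W → ℚ), Fintype.card W = (2 * n * q).choose k ∧
        T.Linear ∧ (∀ e, T.reads e = 1) ∧ T.size = 2 * n ^ 2 - 1 ∧
          ∀ x, T.value c x ≠ 0 ↔ SomeClosed (lift x) k) :=
  ⟨fun _ _ _ hη hη1 hm hn w μ R _ _ K W _ _ T c h1 hno hyes =>
      lower_sse_net hη hη1 hm hn w μ R K W T c h1 hno hyes,
    fun _ _ _ hn hm hmq hc x => not_expanding hn hm hmq hc x,
    fun _ w α β => ⟨rotate_iso w α β, Pool.Agent.U20.DG.lift_regular w⟩,
    fun _ k hn => upper_sse_net hn k⟩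

end Pool.Agent.Results.MP_8d8c46_lc.TensorNetworks
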